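import Pool.Agent.H59.LIN.Targets

/-!
# MP_559314_gt, row CMD: the circles of the chord diagram and the components of the smoothings
-/

set_option autoImplicit false

open Finset Polynomial

namespace Pool.Agent.H37.LIN

open Pool.Agent.H59.LIN

private theorem rmv_empty {β : Type} (w : List β) : ∀ k, rmv (∅ : Finset ℕ) k w = w := by
  induction w with
  | nil => intro k; rfl
  | cons x w ih =>
    intro k
    simp only [rmv, notMem_empty, if_false]
    rw [ih (k + 1)]

theorem pf_CMD (hNCL : Pool.Agent.H59.LIN.T_NCL) (hCMA : Pool.Agent.H59.LIN.T_CMA)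
    (hCMB : Pool.Agent.H59.LIN.T_CMB) (hCMC : Pool.Agent.H59.LIN.T_CMC) :
    Pool.Agent.H59.LIN.T_CMD := by
  intro n w d D t hw ht hg
  refine ⟨hCMC.1 n w d D t hw ht hg, fun B => ?_⟩
  rcases Nat.eq_zero_or_pos d with hd | hd
  · subst hd
    have hB : B = ∅ := Finset.eq_empty_of_isEmpty B
    rw [hB, Finset.image_empty, rmv_empty, hNCL.2.2.2.2 _ n w hw]
    unfold circ ncl
    have : IsEmpty (Fin (2 * 0)) := inferInstanceAs (IsEmpty (Fin 0))
    rw [Nat.card_of_isEmpty]
  · have hne : w ≠ [] := by
      rintro rfl
      have h1 := congrArg List.length hg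
      rw [List.length_ofFn] at h1
      have h2 : gauss ([] : SWd n) = [] := by
        unfold gauss
        rw [List.flatMap_eq_nil_iff]
        intro j _
        rfl
      rw [h2] at h1
      simp at h1
      omega
    rw [← hCMB n w d D t hd hw ht hg B, hCMA n w (B.image t) hne]

end Pool.Agent.H37.LIN
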