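import Pool.Agent.H59.LIN.Targets

/-!
# MP_559314_gt, row PRS: products of set functions
-/

set_option autoImplicit false

open Finset Polynomial

namespace Pool.Agent.H37.LIN

open Pool.Agent.H59.LIN

private theorem prs_gen {α K : Type} [DecidableEq α] [Fintype α] [CommRing K] (r : ℕ) :
    ∀ (ψ : Fin r → SF α K) (A : Finset α),
    (∏ p, ψ p) A = ∑ κ ∈ (univ : Finset (α → Option (Fin r))).filter
      (fun κ => ∀ a, κ a = none ↔ a ∉ A), ∏ p, ψ p (univ.filter fun a => κ a = some p) := by
  classical
  induction r with
  | zero =>
    intro ψ A
    rw [Finset.sum_filter, Fintype.sum_unique, Finset.univ_eq_empty, Finset.prod_empty,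
      Finset.prod_empty, SF.one_def]
    have h : (A = ∅) ↔ ∀ a : α, (default : α → Option (Fin 0)) a = none ↔ a ∉ A := by
      rw [Finset.eq_empty_iff_forall_notMem]
      constructor
      · intro h a
        exact ⟨fun _ => h a, fun _ => rfl⟩
      · intro h a
        exact (h a).1 rfl
    by_cases hA : A = ∅
    · rw [if_pos hA, if_pos (h.1 hA)]
    · rw [if_neg hA, if_neg (fun h1 => hA (h.2 h1))]
  | succ r ih =>
    intro ψ A
    rw [Fin.prod_univ_succ, SF.mul_def]
    have h1 : ∀ B ∈ A.powerset, ψ 0 B * (∏ i : Fin r, ψ i.succ) (A \ B) =
        ∑ κ ∈ (univ : Finset (α → Option (Fin r))).filter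
          (fun κ => ∀ a, κ a = none ↔ a ∉ A \ B),
          ψ 0 B * ∏ p, ψ (Fin.succ p) (univ.filter fun a => κ a = some p) := by
      intro B _
      rw [ih (fun i => ψ i.succ) (A \ B), Finset.mul_sum]
    rw [Finset.sum_congr rfl h1, Finset.sum_sigma']
    refine Finset.sum_nbij' (fun x => fun a => if a ∈ x.1 then some 0 else (x.2 a).map Fin.succ)
      (fun κ => ⟨univ.filter fun a => κ a = some 0, fun a => (κ a).bind fun p =>
        if h : p = 0 then none else some (p.pred h)⟩) ?_ ?_ ?_ ?_ ?_
    · rintro ⟨B, κ⟩ hx
      simp only [mem_sigma, mem_powerset, mem_filter, mem_univ, true_and] at hx ⊢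
      obtain ⟨hB, hκ⟩ := hx
      intro a
      by_cases ha : a ∈ B
      · rw [if_pos ha]
        simp [hB ha]
      · rw [if_neg ha, Option.map_eq_none_iff, hκ a, mem_sdiff]
        tauto
    · intro κ hκ
      simp only [mem_sigma, mem_powerset, mem_filter, mem_univ, true_and] at hκ ⊢
      refine ⟨?_, ?_⟩
      · intro a ha
        rw [mem_filter] at ha
        by_contra h2
        rw [(hκ a).2 h2] at ha
        exact absurd ha.2 (by simp)
      · intro a
        rw [mem_sdiff, mem_filter, ← not_not (a := a ∈ A), ← hκ a]
        cases h3 : κ a with
        | none => simp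
        | some p =>
          by_cases hp : p = 0
          · simp [hp]
          · simp [hp]
    · rintro ⟨B, κ⟩ hx
      simp only [mem_sigma, mem_powerset, mem_filter, mem_univ, true_and] at hx
      obtain ⟨hB, hκ⟩ := hx
      have e1 : (univ.filter fun a => (if a ∈ B then some 0 else (κ a).map Fin.succ) =
          (some 0 : Option (Fin (r + 1)))) = B := by
        ext a
        rw [mem_filter]
        by_cases ha : a ∈ B
        · simp [ha]
        · simp only [mem_univ, true_and, ha, iff_false]
          cases h3 : κ a with
          | none => simp
          | some p => simp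
      have e2 : (fun a => (if a ∈ B then some 0 else (κ a).map Fin.succ).bind fun p : Fin (r + 1) =>
          if h : p = 0 then none else some (p.pred h)) = κ := by
        funext a
        by_cases ha : a ∈ B
        · have h4 : κ a = none := (hκ a).2 (fun h5 => (mem_sdiff.1 h5).2 ha)
          rw [if_pos ha, h4]
          simp
        · rw [if_neg ha]
          cases h3 : κ a with
          | none => simp
          | some p => simp
      simp only [e1, e2]
    · intro κ hκ
      funext a
      simp only [mem_filter, mem_univ, true_and]
      cases h3 : κ a with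
      | none => simp
      | some p =>
        by_cases hp : p = 0
        · simp [hp]
        · simp [hp]
    · rintro ⟨B, κ⟩ hx
      simp only [mem_sigma, mem_powerset, mem_filter, mem_univ, true_and] at hx
      obtain ⟨hB, hκ⟩ := hx
      rw [Fin.prod_univ_succ]
      have e1 : (univ.filter fun a => (if a ∈ B then some 0 else (κ a).map Fin.succ) =
          (some 0 : Option (Fin (r + 1)))) = B := by
        ext a
        rw [mem_filter]
        by_cases ha : a ∈ B
        · simp [ha]
        · simp only [mem_univ, true_and, ha, iff_false]
          cases h3 : κ a with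
          | none => simp
          | some p => simp
      have e2 : ∀ p : Fin r, (univ.filter fun a =>
          (if a ∈ B then some 0 else (κ a).map Fin.succ) = some p.succ) =
          univ.filter fun a => κ a = some p := by
        intro p
        ext a
        rw [mem_filter, mem_filter]
        by_cases ha : a ∈ B
        · have h4 : κ a = none := (hκ a).2 (fun h5 => (mem_sdiff.1 h5).2 ha)
          rw [if_pos ha, h4]
          simp [(Fin.succ_ne_zero p).symm]
        · rw [if_neg ha]
          cases h3 : κ a with
          | none => simp
          | some q => simp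
      simp only [e1, e2]

theorem pf_PRS : Pool.Agent.H59.LIN.T_PRS := by
  classical
  intro d K _ r ψ
  rw [prs_gen r ψ univ]
  symm
  refine Finset.sum_nbij (fun κ => fun a => some (κ a)) ?_ ?_ ?_ ?_
  · intro κ _
    simp
  · intro κ _ κ' _ h
    funext a
    have := congrFun h a
    simpa using this
  · intro κ hκ
    simp only [coe_filter, mem_univ, not_true_eq_false, iff_false, true_and,
      Set.mem_ofPred_eq] at hκ
    have h2 : ∀ a, ∃ p, κ a = some p := fun a => Option.ne_none_iff_exists'.1 (hκ a)
    choose f hf using h2
    exact ⟨f, by simp, by funext a; exact (hf a).symm⟩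
  · intro κ _
    refine Finset.prod_congr rfl fun p _ => ?_
    unfold fbr
    congr 1
    ext a
    simp

end Pool.Agent.H37.LIN
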